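import Mathlib

set_option autoImplicit false

namespace Pool.Agent.Results.MP_3923f3_nt.BakerLower

/-- admissible quadruples -/
def Admissible (a b c d : ℤ) : Prop :=
  (a ≠ 0 ∧ b ≠ 0 ∧ c ≠ 0) ∧ ¬ (0 < a ∧ 0 < b ∧ 0 < c) ∧ ¬ (a < 0 ∧ b < 0 ∧ c < 0) ∧
  Even (a + b + c - d) ∧ Int.gcd (Int.gcd a b) c = 1 ∧ Int.gcd (Int.gcd d a) b = 1 ∧
  Int.gcd (Int.gcd d a) c = 1 ∧ Int.gcd (Int.gcd d b) c = 1

/-- `m(a,b,c) = max(3,|a|,|b|,|c|)` -/
def m (a b c : ℤ) : ℤ := max 3 (max |a| (max |b| |c|))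

/-- `μ` is good. -/
def Good (μ : ℝ) : Prop :=
  ∀ a b c d : ℤ, Admissible a b c d → ∃ p q r : ℕ, p.Prime ∧ q.Prime ∧ r.Prime ∧
    a * p + b * q + c * r = d ∧ ((max p (max q r) : ℕ) : ℝ) ≤ 3 * |(d : ℝ)| + (m a b c : ℝ) ^ μ

/-- Every good `μ` satisfies `13 ≤ 3^μ`, so Baker's constant is at least `log 13 / log 3 > 7/3`. -/
theorem result : ∀ μ : ℝ, Good μ → (13 : ℝ) ≤ 3 ^ μ ∧ Real.log 13 / Real.log 3 ≤ μ ∧
    7 / 3 < Real.log 13 / Real.log 3 := by
  intro μ hμ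
  have hadm : Admissible 2 3 (-1) 0 := by
    refine ⟨by decide, by decide, by decide, by decide, by decide, by decide, by decide, by decide⟩
  obtain ⟨p, q, r, hp, hq, hr, heq, hmax⟩ := hμ 2 3 (-1) 0 hadm
  have hm : m 2 3 (-1) = 3 := by decide
  have hr' : r = 2 * p + 3 * q := by
    have : (r : ℤ) = 2 * p + 3 * q := by linarith
    exact_mod_cast this
  have hp2 := hp.two_le
  have hq2 := hq.two_le
  have h13 : 13 ≤ r := by
    by_contra hlt
    have h1 : r ≤ 12 := by omega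
    have h2 : 10 ≤ r := by omega
    have hq3 : q ≤ 2 ∨ q = 3 ∨ 4 ≤ q := by omega
    interval_cases r
    · exact absurd hr (by norm_num)
    · omega
    · exact absurd hr (by norm_num)
  have h1 : (13 : ℝ) ≤ 3 ^ μ := by
    rw [hm] at hmax
    have h2 : (13 : ℝ) ≤ ((max p (max q r) : ℕ) : ℝ) := by
      have : 13 ≤ max p (max q r) := le_trans h13 (le_trans (le_max_right q r) (le_max_right _ _))
      exact_mod_cast this
    have h3 : (3 : ℝ) * |((0 : ℤ) : ℝ)| = 0 := by simp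
    rw [h3, zero_add] at hmax
    have h4 : (((3 : ℤ) : ℝ)) ^ μ = (3 : ℝ) ^ μ := by norm_num
    rw [h4] at hmax
    linarith
  have hl3 : 0 < Real.log 3 := Real.log_pos (by norm_num)
  refine ⟨h1, ?_, ?_⟩
  · rw [div_le_iff₀ hl3]
    have := Real.log_le_log (by norm_num) h1
    rwa [Real.log_rpow (by norm_num)] at this
  · rw [lt_div_iff₀ hl3]
    have h5 : Real.log ((3 : ℝ) ^ 7) < Real.log ((13 : ℝ) ^ 3) :=
      Real.log_lt_log (by norm_num) (by norm_num)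
    rw [Real.log_pow, Real.log_pow] at h5
    push_cast at h5
    linarith

end Pool.Agent.Results.MP_3923f3_nt.BakerLower
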